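import Pool.Agent.helper42.CQ.SpecC

/-!
# The biased clique game, exact first order (MP_ba8873_co), row cq:SU2
-/

set_option autoImplicit false

namespace Pool.Agent.helper42.CQ

open Finset Pool.Agent.helper24.CG

theorem SU2_fam (N q : ℕ) (Bk : ES N) (B X : Finset (Fin N)) :
    (fam N q Bk B ∅).filter (fun F => Disjoint X F) = fam N q Bk B X := by
  ext F
  unfold fam
  simp only [mem_filter, mem_univ, true_and]
  constructor
  · rintro ⟨⟨h1, h2, -, h4⟩, h5⟩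
    exact ⟨h1, h2, h5, h4⟩
  · rintro ⟨h1, h2, h3, h4⟩
    exact ⟨⟨h1, h2, disjoint_empty_left F, h4⟩, h3⟩

theorem SU2_fam' (N q : ℕ) (Bk : ES N) (B X : Finset (Fin N)) (v : Fin N) :
    (fam N q Bk B ∅).filter (fun F => Disjoint X F ∧ v ∈ F) =
      (fam N q Bk B X).filter (fun F => v ∈ F) := by
  rw [← SU2_fam N q Bk B X, filter_filter]

theorem SU2_nn (N m b s q p : ℕ) (hN : 1 ≤ N) (hsq : s ≤ q) : nn N m b s p ≤ nn N m b q p := by
  unfold nn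
  refine Nat.ceil_mono ?_
  have h1 : (s : ℝ) ≤ q := by exact_mod_cast hsq
  have h2 : (0 : ℝ) ≤ s := Nat.cast_nonneg s
  have h3 : (0 : ℝ) ≤ Real.log N := Real.log_natCast_nonneg N
  have h4 : (0 : ℝ) ≤ Real.log (1 + b) := by
    refine Real.log_nonneg ?_
    have : (0 : ℝ) ≤ b := Nat.cast_nonneg b
    linarith
  have h5 : (s : ℝ) ^ 2 ≤ (q : ℝ) ^ 2 := pow_le_pow_left₀ h2 h1 2
  refine mul_le_mul ?_ ?_ ?_ ?_
  · have h6 : (s : ℝ) * Real.log N ≤ q * Real.log N := mul_le_mul_of_nonneg_right h1 h3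
    have h7 : (s : ℝ) ^ 2 * Real.log (1 + b) ≤ (q : ℝ) ^ 2 * Real.log (1 + b) :=
      mul_le_mul_of_nonneg_right h5 h4
    linarith
  · exact mul_le_mul_of_nonneg_left h5 (by positivity)
  · positivity
  · positivity

theorem SU2_gain {α : Type} [DecidableEq α] (b m : ℕ) (S : Finset α) (H : List (Finset α)) :
    0 ≤ gain b m S H := by
  unfold gain
  refine List.prod_nonneg fun a ha => ?_
  obtain ⟨E, _, rfl⟩ := List.mem_map.1 ha
  positivity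

theorem SU2 (hSUN : SUN_stmt) (hHVY : HVY_stmt) (hNUB : NUB_stmt) (hN0B : N0B_stmt)
    (hINI : INI_stmt) : SU2_stmt := by
  intro N m b q p c H Bk Ψ hN hm hq hp hc hH hΨ hΨc hΨ1
  have hp' : (1 : ℝ) ≤ (p : ℝ) := by exact_mod_cast hp
  have hm' : (1 : ℝ) ≤ (m : ℝ) := by exact_mod_cast hm
  have hq' : (1 : ℝ) ≤ (q : ℝ) := by exact_mod_cast hq
  have hN' : (1 : ℝ) ≤ (N : ℝ) := by exact_mod_cast hN
  have hX : ∀ (B : Finset (Fin N)) (s : ℕ), ∃ X : Finset (Fin N), X.card ≤ nn N m b q p ∧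
      (B.card ≤ s → 1 ≤ s → s ≤ q →
      ∀ v, ∑ F ∈ (fam N s Bk B X).filter (fun F => v ∈ F), nu b m H B F ≤
        (2 * (p : ℝ) ^ 2 * m * (s : ℝ) ^ 2)⁻¹ * ∑ F ∈ fam N s Bk B X, nu b m H B F) := by
    intro B s
    by_cases hB : B.card ≤ s ∧ 1 ≤ s ∧ s ≤ q
    · obtain ⟨hBs, hs, hsq⟩ := hB
      have hs' : (1 : ℝ) ≤ (s : ℝ) := by exact_mod_cast hs
      have hden : (1 : ℝ) ≤ 2 * (p : ℝ) ^ 2 * m * (s : ℝ) ^ 2 := by
        have a1 : (1 : ℝ) ≤ (p : ℝ) ^ 2 := one_le_pow₀ hp'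
        have a2 : (1 : ℝ) ≤ (s : ℝ) ^ 2 := one_le_pow₀ hs'
        have a3 : (1 : ℝ) ≤ 2 * (p : ℝ) ^ 2 := by linarith
        have a4 : (1 : ℝ) ≤ 2 * (p : ℝ) ^ 2 * m := by nlinarith
        nlinarith
      have hτ0 : 0 < (2 * (p : ℝ) ^ 2 * m * (s : ℝ) ^ 2)⁻¹ := by positivity
      have hτ1 : (2 * (p : ℝ) ^ 2 * m * (s : ℝ) ^ 2)⁻¹ ≤ 1 := inv_le_one_of_one_le₀ hden
      obtain ⟨k1, k2⟩ := hNUB N m b s H Bk B hN hm hBs hH
      obtain ⟨X, hX1, hX2⟩ := hHVY N (nn N m b s p) (fam N s Bk B ∅) (nu b m H B) _ _ hτ0 hτ1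
        (fun F _ => k1 F) k2 (hN0B N m b s p hN hm hs hp)
      refine ⟨X, hX1.trans (SU2_nn N m b s q p hN hsq), fun _ _ _ v => ?_⟩
      have := hX2 v
      rw [SU2_fam, SU2_fam'] at this
      exact this
    · exact ⟨∅, by simp, fun h1 h2 h3 => absurd ⟨h1, h2, h3⟩ hB⟩
  choose X hXn hXv using hX
  refine ⟨X, hXn, fun B s hBs hs hsq => ?_⟩
  have hs' : (1 : ℝ) ≤ (s : ℝ) := by exact_mod_cast hs
  have hsq' : (s : ℝ) ≤ (q : ℝ) := by exact_mod_cast hsq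
  have hq0 : (0 : ℝ) ≤ (q : ℝ) + 1 := by linarith
  have hc' : (1 : ℝ) ≤ ((q : ℝ) + 1) * c := by nlinarith
  have hpsi : ∀ S, Psi0 N s p S ≤ ((q : ℝ) + 1) * Psi1 N q p S := by
    intro S
    unfold Psi1
    rw [mul_div_cancel₀ _ (by linarith : (q : ℝ) + 1 ≠ 0)]
    exact Finset.single_le_sum (f := fun s => Psi0 N s p S) (fun t _ => (hINI N t p hN).1 S)
      (Finset.mem_Icc.2 ⟨hs, hsq⟩)
  have hmain := hSUN N m b s p H Bk (fun S => ((q : ℝ) + 1) * Ψ S) (((q : ℝ) + 1) * c) B (X B s)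
    hN hm hp hs hc' hBs hH (fun S => mul_nonneg hq0 (hΨ S))
    (by rw [← Finset.mul_sum]; exact mul_le_mul_of_nonneg_left hΨc hq0)
    (fun S hS => by
      have h1 := hΨ1 S hS
      have h2 := mul_le_mul_of_nonneg_right (hpsi S) (SU2_gain b m S H)
      have h3 := mul_le_mul_of_nonneg_left h1 hq0
      rw [mul_assoc] at h2
      exact h2.trans h3)
    (hXv B s hBs hs hsq)
  refine hmain.trans ?_
  have hBq : (B.card : ℝ) ≤ q := by exact_mod_cast hBs.trans hsq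
  have hexp : (N : ℝ) ^ (((s - B.card : ℕ) : ℝ) + (B.card : ℝ) / (p : ℝ)) ≤
      (N : ℝ) ^ (((s - B.card : ℕ) : ℝ) + (q : ℝ) / (p : ℝ)) := by
    refine Real.rpow_le_rpow_of_exponent_le hN' ?_
    have : (B.card : ℝ) / (p : ℝ) ≤ (q : ℝ) / (p : ℝ) :=
      div_le_div_of_nonneg_right hBq (by linarith)
    linarith
  have hN0 : (0 : ℝ) ≤ (N : ℝ) ^ (((s - B.card : ℕ) : ℝ) + (B.card : ℝ) / (p : ℝ)) :=
    Real.rpow_nonneg (by linarith) _
  refine mul_le_mul ?_ hexp hN0 (by positivity)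
  have h4 : ((q : ℝ) + 1) * c * ((s : ℝ) + 1) ≤ ((q : ℝ) + 1) * c * ((q : ℝ) + 1) :=
    mul_le_mul_of_nonneg_left (by linarith) (by linarith)
  nlinarith

end Pool.Agent.helper42.CQ
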